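import Mathlib

set_option autoImplicit false

/-!
Two general lemmas, copied from the teammate module H438R2/Sum (helper438).
-/

open MeasureTheory Set
open scoped ENNReal

namespace Pool.Agent.R331.LF

theorem tsum_ht_ne_top {ι : Type*} (h : ι → ℕ) (N C : ℕ) (hpos : ∀ i, 1 ≤ h i)
    (hc : ∀ H : ℕ, {i | h i ≤ H}.Finite ∧ {i | h i ≤ H}.ncard ≤ C * H ^ N) (σ : ℝ) (hσ : (N : ℝ) < σ) :
    ∑' i, ENNReal.ofReal ((h i : ℝ) ^ (-σ)) ≠ ∞ := by
  classical
  have hσ0 : 0 < σ := lt_of_le_of_lt (Nat.cast_nonneg N) hσ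
  set g : ι → ℕ := fun i => Nat.log 2 (h i) with hg
  have hlog : ∀ i, 2 ^ (g i) ≤ h i ∧ h i ≤ 2 ^ (g i + 1) := fun i =>
    ⟨Nat.pow_log_le_self 2 (by have := hpos i; omega), (Nat.lt_pow_succ_log_self one_lt_two (h i)).le⟩
  have hq0 : (0 : ℝ) < (2 : ℝ) ^ ((N : ℝ) - σ) := by positivity
  have hq1 : (2 : ℝ) ^ ((N : ℝ) - σ) < 1 := Real.rpow_lt_one_of_one_lt_of_neg one_lt_two (by linarith)
  have hfib : ∀ k : ℕ, ∑' i : {i // g i = k}, ENNReal.ofReal ((h i : ℝ) ^ (-σ)) ≤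
      ENNReal.ofReal (C * 2 ^ N) * (ENNReal.ofReal ((2 : ℝ) ^ ((N : ℝ) - σ))) ^ k := by
    intro k
    have hsub : {i | g i = k} ⊆ {i | h i ≤ 2 ^ (k + 1)} := by
      intro i hi
      have := (hlog i).2
      rw [show g i = k from hi] at this
      exact this
    obtain ⟨hf1, hf2⟩ := hc (2 ^ (k + 1))
    have hfin : {i | g i = k}.Finite := hf1.subset hsub
    have hcard : {i | g i = k}.ncard ≤ C * (2 ^ (k + 1)) ^ N := (ncard_le_ncard hsub hf1).trans hf2
    have : Fintype {i // g i = k} := hfin.fintype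
    rw [tsum_fintype]
    have h1 : ∀ i ∈ (Finset.univ : Finset {i // g i = k}), ENNReal.ofReal ((h i : ℝ) ^ (-σ)) ≤
        ENNReal.ofReal (((2 : ℝ) ^ k) ^ (-σ)) := by
      intro i _
      refine ENNReal.ofReal_le_ofReal ?_
      refine Real.rpow_le_rpow_of_nonpos (by positivity) ?_ (by linarith)
      have := (hlog i).1
      rw [i.2] at this
      exact_mod_cast this
    refine (Finset.sum_le_card_nsmul _ _ _ h1).trans ?_
    have hcard2 : (Finset.univ : Finset {i // g i = k}).card ≤ C * (2 ^ (k + 1)) ^ N := by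
      have h3 : (Finset.univ : Finset {i // g i = k}).card = {i | g i = k}.ncard := by
        rw [Finset.card_univ, ← Nat.card_eq_fintype_card]
        rfl
      rw [h3]; exact hcard
    rw [nsmul_eq_mul]
    calc ((Finset.univ : Finset {i // g i = k}).card : ℝ≥0∞) * ENNReal.ofReal (((2 : ℝ) ^ k) ^ (-σ))
        ≤ ((C * (2 ^ (k + 1)) ^ N : ℕ) : ℝ≥0∞) * ENNReal.ofReal (((2 : ℝ) ^ k) ^ (-σ)) := by
          gcongr
      _ = ENNReal.ofReal (((C * (2 ^ (k + 1)) ^ N : ℕ) : ℝ) * ((2 : ℝ) ^ k) ^ (-σ)) := by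
          rw [ENNReal.ofReal_mul (by positivity), ENNReal.ofReal_natCast]
      _ = ENNReal.ofReal ((C * 2 ^ N) * ((2 : ℝ) ^ ((N : ℝ) - σ)) ^ k) := by
          congr 1
          rw [← Real.rpow_natCast ((2 : ℝ) ^ ((N : ℝ) - σ)) k, ← Real.rpow_mul (by norm_num),
            ← Real.rpow_natCast (2 : ℝ) k, ← Real.rpow_mul (by norm_num)]
          push_cast
          rw [← pow_mul, ← Real.rpow_natCast (2 : ℝ) ((k + 1) * N), ← Real.rpow_natCast (2 : ℝ) N,
            mul_assoc, mul_assoc, ← Real.rpow_add (by norm_num), ← Real.rpow_add (by norm_num)]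
          congr 2
          push_cast; ring
      _ = ENNReal.ofReal (C * 2 ^ N) * (ENNReal.ofReal ((2 : ℝ) ^ ((N : ℝ) - σ))) ^ k := by
          rw [ENNReal.ofReal_mul (by positivity), ENNReal.ofReal_pow hq0.le]
  have h2 : ∑' i, ENNReal.ofReal ((h i : ℝ) ^ (-σ)) =
      ∑' k : ℕ, ∑' i : {i // g i = k}, ENNReal.ofReal ((h i : ℝ) ^ (-σ)) := by
    rw [← (Equiv.sigmaFiberEquiv g).tsum_eq]
    exact ENNReal.tsum_sigma (fun k (i : {i // g i = k}) => ENNReal.ofReal ((h i : ℝ) ^ (-σ)))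
  rw [h2]
  refine ne_top_of_le_ne_top ?_ (ENNReal.tsum_le_tsum hfib)
  rw [ENNReal.tsum_mul_left, ENNReal.tsum_geometric]
  refine ENNReal.mul_ne_top ENNReal.ofReal_ne_top ?_
  rw [ENNReal.inv_ne_top]
  have h3 : ENNReal.ofReal ((2 : ℝ) ^ ((N : ℝ) - σ)) < 1 := by
    rw [← ENNReal.ofReal_one]
    exact (ENNReal.ofReal_lt_ofReal_iff one_pos).2 hq1
  exact (tsub_pos_of_lt h3).ne'

/-- Hausdorff–Cantelli lemma. -/
theorem hc {X : Type*} [EMetricSpace X] [MeasurableSpace X] [BorelSpace X] {ι : Type*} [Countable ι]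
    (T : ι → Set X) (s : ℝ) (hs : 0 < s)
    (h : ∑' i, (Metric.ediam (T i))^s ≠ ∞) :
    dimH {x | {i | x ∈ T i}.Infinite} ≤ ENNReal.ofReal s := by
  have h0 := ENNReal.tendsto_tsum_compl_atTop_zero h
  have hr : Filter.Tendsto (fun F : Finset ι =>
      (∑' b : {x // x ∉ F}, (Metric.ediam (T b))^s)^(1/s)) Filter.atTop (nhds 0) := by
    have h1 := (ENNReal.continuous_rpow_const (y := 1/s)).tendsto 0 |>.comp h0
    rw [ENNReal.zero_rpow_of_pos (by positivity)] at h1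
    exact h1
  have key : Measure.hausdorffMeasure s {x : X | {i | x ∈ T i}.Infinite} ≤
      Filter.liminf (fun F : Finset ι => ∑' b : {x // x ∉ F}, (Metric.ediam (T b))^s)
        Filter.atTop := by
    refine Measure.hausdorffMeasure_le_liminf_tsum s _ _ hr
      (fun (F : Finset ι) (b : {x // x ∉ F}) => T b) ?_ ?_
    · refine Filter.Eventually.of_forall fun F b => ?_
      have h2 : (Metric.ediam (T b))^s ≤ ∑' b : {x // x ∉ F}, (Metric.ediam (T b))^s :=
        ENNReal.le_tsum b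
      calc Metric.ediam (T b) = ((Metric.ediam (T b))^s)^(1/s) := by
            rw [← ENNReal.rpow_mul, mul_one_div_cancel hs.ne', ENNReal.rpow_one]
        _ ≤ _ := ENNReal.rpow_le_rpow h2 (by positivity)
    · refine Filter.Eventually.of_forall fun F x hx => ?_
      obtain ⟨i, hi, hiF⟩ := Set.Infinite.exists_notMem_finset hx F
      exact Set.mem_iUnion.2 ⟨⟨i, hiF⟩, hi⟩
  rw [h0.liminf_eq] at key
  have h3 : Measure.hausdorffMeasure ((s.toNNReal : NNReal) : ℝ)
      {x : X | {i | x ∈ T i}.Infinite} ≠ ∞ := by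
    rw [Real.coe_toNNReal s hs.le]
    exact ne_top_of_le_ne_top (by simp) key
  exact dimH_le_of_hausdorffMeasure_ne_top h3

end Pool.Agent.R331.LF
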