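import Pool.Agent.R331.LF.Torus

set_option autoImplicit false

namespace Pool.Agent.R331.LF

open MeasureTheory Filter Topology Set
open scoped ENNReal

attribute [local instance] prob1 haar2

/-- the square of pairs -/
def Sq (Q : ℕ) : Finset (ℕ × ℕ) := Finset.Ico Q (2*Q) ×ˢ Finset.Ico Q (2*Q)

theorem mem_Sq {Q : ℕ} {v : ℕ × ℕ} : v ∈ Sq Q ↔ (Q ≤ v.1 ∧ v.1 < 2*Q) ∧ (Q ≤ v.2 ∧ v.2 < 2*Q) := by
  unfold Sq
  rw [Finset.mem_product, Finset.mem_Ico, Finset.mem_Ico]

theorem card_Sq (Q : ℕ) : (Sq Q).card = Q^2 := by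
  unfold Sq
  rw [Finset.card_product, Nat.card_Ico]
  have : 2 * Q - Q = Q := by omega
  rw [this, sq]

/-- partners parallel to `v` -/
theorem card_par {Q : ℕ} (hQ : 0 < Q) {v : ℕ × ℕ} (hv : v ∈ Sq Q) :
    ((Sq Q).filter (fun v' => v.1 * v'.2 = v'.1 * v.2)).card ≤ 2 * Nat.gcd v.1 v.2 := by
  rw [mem_Sq] at hv
  set g := Nat.gcd v.1 v.2 with hg
  have hg0 : 0 < g := Nat.gcd_pos_of_pos_left _ (by omega)
  obtain ⟨a, ha⟩ : g ∣ v.1 := Nat.gcd_dvd_left _ _
  obtain ⟨b, hb⟩ : g ∣ v.2 := Nat.gcd_dvd_right _ _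
  have hcop : Nat.Coprime a b := by
    have := Nat.coprime_div_gcd_div_gcd (m := v.1) (n := v.2) hg0
    rw [← hg] at this
    rwa [ha, hb, Nat.mul_div_cancel_left _ hg0, Nat.mul_div_cancel_left _ hg0] at this
  have ha0 : 0 < a := by
    rcases Nat.eq_zero_or_pos a with h | h
    · rw [h] at ha; omega
    · exact h
  have hsub : (Sq Q).filter (fun v' => v.1 * v'.2 = v'.1 * v.2) ⊆
      (Finset.range (2*g)).image (fun k => (k * a, k * b)) := by
    intro v' hv'
    rw [Finset.mem_filter, mem_Sq] at hv'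
    obtain ⟨hm, he⟩ := hv'
    rw [ha, hb] at he
    have he2 : a * v'.2 = v'.1 * b := by
      have : g * (a * v'.2) = g * (v'.1 * b) := by
        calc g * (a * v'.2) = g * a * v'.2 := by ring
          _ = v'.1 * (g * b) := he
          _ = _ := by ring
      exact Nat.eq_of_mul_eq_mul_left hg0 this
    have hd : a ∣ v'.1 := by
      have : a ∣ v'.1 * b := ⟨v'.2, he2.symm⟩
      exact hcop.dvd_of_dvd_mul_right this
    obtain ⟨k, hk⟩ := hd
    rw [Finset.mem_image]
    refine ⟨k, ?_, ?_⟩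
    · rw [Finset.mem_range]
      have h1 : a * k < 2 * (g * a) := by
        rw [← hk, ← ha]
        omega
      have h2 : k * a < 2 * g * a := by nlinarith
      exact Nat.lt_of_mul_lt_mul_right h2
    · have h3 : v'.2 = k * b := by
        rw [hk] at he2
        have : a * v'.2 = a * (k * b) := by rw [he2]; ring
        exact Nat.eq_of_mul_eq_mul_left ha0 this
      ext
      · show k * a = v'.1
        rw [hk]; ring
      · show k * b = v'.2
        rw [h3]
  refine (Finset.card_le_card hsub).trans (Finset.card_image_le.trans ?_)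
  rw [Finset.card_range]

theorem harm (k : ℕ) : ∑ d ∈ Finset.Ico (1:ℕ) ((2:ℕ)^k), (1:ℝ) / (d:ℝ) ≤ k := by
  induction k with
  | zero => simp
  | succ k ih =>
    have h1 : 1 ≤ 2^k := Nat.one_le_two_pow
    have h2 : 2^k ≤ 2^(k+1) := Nat.pow_le_pow_right (by norm_num) (by omega)
    rw [← Finset.sum_Ico_consecutive _ h1 h2]
    have h3 : ∑ d ∈ Finset.Ico ((2:ℕ)^k) ((2:ℕ)^(k+1)), (1:ℝ) / (d:ℝ) ≤ 1 := by
      calc ∑ d ∈ Finset.Ico ((2:ℕ)^k) ((2:ℕ)^(k+1)), (1:ℝ) / (d:ℝ) ≤ ∑ _d ∈ Finset.Ico ((2:ℕ)^k) ((2:ℕ)^(k+1)), (1:ℝ) / 2^k := by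
            apply Finset.sum_le_sum
            intro d hd
            rw [Finset.mem_Ico] at hd
            apply one_div_le_one_div_of_le (by positivity)
            exact_mod_cast hd.1
        _ = 1 := by
            rw [Finset.sum_const, Nat.card_Ico, nsmul_eq_mul]
            have : (2:ℕ)^(k+1) - 2^k = 2^k := by rw [pow_succ]; omega
            rw [this]
            push_cast
            field_simp
    push_cast
    linarith

theorem sum_gcd (k : ℕ) : ∑ v ∈ Sq (2^k), (Nat.gcd v.1 v.2 : ℝ) ≤ 4 * (4:ℝ)^k * (k+1) := by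
  set Q := 2^k with hQ
  have hQ0 : 0 < Q := by positivity
  have h1 : ∀ v ∈ Sq Q, (Nat.gcd v.1 v.2 : ℝ) ≤ ∑ d ∈ Finset.Ico (1:ℕ) (2*Q),
      (if d ∣ v.1 then (1:ℝ) else 0) * (if d ∣ v.2 then (1:ℝ) else 0) * d := by
    intro v hv
    rw [mem_Sq] at hv
    have hg0 : 0 < Nat.gcd v.1 v.2 := Nat.gcd_pos_of_pos_left _ (by omega)
    have hgm : Nat.gcd v.1 v.2 ∈ Finset.Ico 1 (2*Q) := by
      rw [Finset.mem_Ico]
      refine ⟨hg0, lt_of_le_of_lt (Nat.le_of_dvd (by omega) (Nat.gcd_dvd_left _ _)) hv.1.2⟩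
    refine le_trans (le_of_eq ?_) (Finset.single_le_sum (f := fun d : ℕ =>
      (if d ∣ v.1 then (1:ℝ) else 0) * (if d ∣ v.2 then (1:ℝ) else 0) * d) (fun d _ => by positivity) hgm)
    rw [if_pos (Nat.gcd_dvd_left _ _), if_pos (Nat.gcd_dvd_right _ _)]
    ring
  refine (Finset.sum_le_sum h1).trans ?_
  rw [Finset.sum_comm]
  have h2 : ∀ d ∈ Finset.Ico 1 (2*Q), ∑ v ∈ Sq Q, (if d ∣ v.1 then (1:ℝ) else 0) * (if d ∣ v.2 then (1:ℝ) else 0) * d ≤
      4 * (4:ℝ)^k * (1/d) := by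
    intro d hd
    rw [Finset.mem_Ico] at hd
    have hd0 : (0:ℝ) < d := by exact_mod_cast hd.1
    have h3 : ∑ v ∈ Sq Q, (if d ∣ v.1 then (1:ℝ) else 0) * (if d ∣ v.2 then (1:ℝ) else 0) * d =
        (∑ p ∈ Finset.Ico Q (2*Q), if d ∣ p then (1:ℝ) else 0)^2 * d := by
      unfold Sq
      rw [Finset.sum_product, sq, Finset.sum_mul_sum, Finset.sum_mul]
      apply Finset.sum_congr rfl
      intro p _
      rw [Finset.sum_mul]
    rw [h3]
    have h4 : (∑ p ∈ Finset.Ico Q (2*Q), if d ∣ p then (1:ℝ) else 0) ≤ 2 * Q / d := by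
      rw [← Finset.sum_filter, Finset.sum_const, nsmul_eq_mul, mul_one]
      have h5 : ((Finset.Ico Q (2*Q)).filter (fun p => d ∣ p)).card ≤ (2*Q) / d := by
        rw [← Nat.Ioc_filter_dvd_card_eq_div]
        apply Finset.card_le_card
        intro p hp
        rw [Finset.mem_filter, Finset.mem_Ico] at hp
        rw [Finset.mem_filter, Finset.mem_Ioc]
        exact ⟨⟨by omega, by omega⟩, hp.2⟩
      calc (((Finset.Ico Q (2*Q)).filter (fun p => d ∣ p)).card : ℝ) ≤ (((2*Q) / d : ℕ) : ℝ) := by exact_mod_cast h5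
        _ ≤ ((2*Q : ℕ) : ℝ) / d := Nat.cast_div_le
        _ = _ := by push_cast; rfl
    have h6 : 0 ≤ (∑ p ∈ Finset.Ico Q (2*Q), if d ∣ p then (1:ℝ) else 0) := Finset.sum_nonneg fun p _ => by positivity
    calc (∑ p ∈ Finset.Ico Q (2*Q), if d ∣ p then (1:ℝ) else 0)^2 * d ≤ (2 * Q / d)^2 * d := by
          apply mul_le_mul_of_nonneg_right _ hd0.le
          exact pow_le_pow_left₀ h6 h4 2
      _ = 4 * (4:ℝ)^k * (1/d) := by
          have e : (4:ℝ)^k = (Q:ℝ)^2 := by
            rw [hQ]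
            push_cast
            rw [← pow_mul, mul_comm k 2, pow_mul]
            norm_num
          rw [e]
          field_simp
          norm_num
  refine (Finset.sum_le_sum h2).trans ?_
  rw [← Finset.mul_sum]
  have h7 := harm (k+1)
  have e : 2 * Q = 2^(k+1) := by rw [hQ, pow_succ]; ring
  rw [e]
  push_cast at h7
  apply mul_le_mul_of_nonneg_left h7 (by positivity)

theorem bad_prob {ε : ℝ} (hε : 0 < ε) (hε1 : ε ≤ 1/2) (k : ℕ) :
    (volume : Measure (T1 × T1)).real {z | ∀ v ∈ Sq (2^k), z ∉ EE ε v} ≤ 4 * (k+1) / (ε * 4^k) := by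
  have hQ0 : 0 < 2^k := by positivity
  have hpos : ∀ v ∈ Sq (2^k), 0 < v.1 := by
    intro v hv
    rw [mem_Sq] at hv
    omega
  have hreal : ∀ v ∈ Sq (2^k), (volume : Measure (T1 × T1)).real (EE ε v) = 2 * ε := by
    intro v hv
    rw [Measure.real, vol_EE hε.le hε1 (hpos v hv), ENNReal.toReal_ofReal (by linarith)]
  have hV : ∑ v ∈ Sq (2^k), ∑ v' ∈ Sq (2^k), ((volume : Measure (T1 × T1)).real (EE ε v ∩ EE ε v') - (2*ε)^2) ≤
      (2 * ε) * (8 * (4:ℝ)^k * (k+1)) := by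
    have h1 : ∀ v ∈ Sq (2^k), ∑ v' ∈ Sq (2^k), ((volume : Measure (T1 × T1)).real (EE ε v ∩ EE ε v') - (2*ε)^2) ≤
        (2 * ε) * (2 * (Nat.gcd v.1 v.2 : ℝ)) := by
      intro v hv
      have h2 : ∀ v' ∈ Sq (2^k), ((volume : Measure (T1 × T1)).real (EE ε v ∩ EE ε v') - (2*ε)^2) ≤
          if v.1 * v'.2 = v'.1 * v.2 then 2 * ε else 0 := by
        intro v' hv'
        split_ifs with hc
        · have : (volume : Measure (T1 × T1)).real (EE ε v ∩ EE ε v') ≤ 2 * ε := by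
            rw [← hreal v hv]
            exact measureReal_mono inter_subset_left
          nlinarith
        · rw [Measure.real, vol_inter hε.le hε1 hc, ← ENNReal.ofReal_mul (by linarith),
            ENNReal.toReal_ofReal (by positivity)]
          nlinarith
      refine (Finset.sum_le_sum h2).trans ?_
      rw [← Finset.sum_filter, Finset.sum_const, nsmul_eq_mul, mul_comm]
      apply mul_le_mul_of_nonneg_left _ (by linarith)
      exact_mod_cast card_par hQ0 hv
    refine (Finset.sum_le_sum h1).trans ?_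
    rw [← Finset.mul_sum, ← Finset.mul_sum]
    have := sum_gcd k
    apply mul_le_mul_of_nonneg_left _ (by linarith)
    linarith
  have hne : (Sq (2^k)).Nonempty := by
    refine ⟨(2^k, 2^k), ?_⟩
    rw [mem_Sq]
    omega
  have h := cheb (volume : Measure (T1 × T1)) (Sq (2^k)) (EE ε) (meas_EE ε) (2*ε) (by linarith) hreal _ hV hne
  refine h.trans (le_of_eq ?_)
  rw [card_Sq]
  have e : (((2^k)^2 : ℕ) : ℝ) = 4^k := by
    push_cast
    rw [← pow_mul, mul_comm k 2, pow_mul]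
    norm_num
  rw [e]
  field_simp
  ring

/-- almost every point is hit at all large scales -/
theorem ae_hit {δ : ℝ} (hδ : 0 < δ) (hδ1 : δ < 1) :
    ∀ᵐ z ∂(volume : Measure (T1 × T1)), ∀ᶠ k : ℕ in atTop, ∃ v ∈ Sq (2^k), ‖lf v z‖ ≤ (2:ℝ)^(-(2-δ)*k) := by
  set ε : ℕ → ℝ := fun k => (2:ℝ)^(-(2-δ)*k) with hε
  have hεpos : ∀ k, 0 < ε k := fun k => Real.rpow_pos_of_pos (by norm_num) _
  set Z : ℕ → Set (T1 × T1) := fun k => {z | ∀ v ∈ Sq (2^(k+1)), z ∉ EE (ε (k+1)) v} with hZ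
  have hsum : ∑' k, volume (Z k) ≠ ⊤ := by
    have h1 : ∀ k, volume (Z k) ≤ ENNReal.ofReal (4 * ((k+1:ℕ)+1) * ((2:ℝ)^(-δ))^(k+1)) := by
      intro k
      have he1 : ε (k+1) ≤ 1/2 := by
        have h2 : -(2-δ)*((k+1 : ℕ) : ℝ) ≤ -1 := by
          have : (1:ℝ) ≤ ((k+1 : ℕ) : ℝ) := by
            push_cast
            have : (0:ℝ) ≤ k := Nat.cast_nonneg k
            linarith
          nlinarith
        calc ε (k+1) ≤ (2:ℝ)^(-1:ℝ) := Real.rpow_le_rpow_of_exponent_le (by norm_num) h2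
          _ = 1/2 := by rw [Real.rpow_neg_one]; norm_num
      have h3 := bad_prob (hεpos (k+1)) he1 (k+1)
      have h4 : volume (Z k) = ENNReal.ofReal ((volume : Measure (T1 × T1)).real (Z k)) := by
        rw [Measure.real, ENNReal.ofReal_toReal (measure_ne_top _ _)]
      rw [h4]
      apply ENNReal.ofReal_le_ofReal
      refine h3.trans (le_of_eq ?_)
      have h5 : ((2:ℝ)^(-δ))^(k+1) = 1 / (ε (k+1) * 4^(k+1)) := by
        have e4 : (4:ℝ)^(k+1) = (2:ℝ)^((2:ℝ) * ((k+1 : ℕ) : ℝ)) := by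
          rw [Real.rpow_mul (by norm_num), Real.rpow_natCast]
          norm_num
        rw [e4, hε]
        simp only
        rw [← Real.rpow_add (by norm_num), ← Real.rpow_natCast, ← Real.rpow_mul (by norm_num), one_div,
          ← Real.rpow_neg (by norm_num)]
        congr 1
        ring
      rw [h5]
      ring
    refine ne_top_of_le_ne_top ?_ (ENNReal.tsum_le_tsum h1)
    have hr : ‖(2:ℝ)^(-δ)‖ < 1 := by
      rw [Real.norm_of_nonneg (by positivity)]
      exact Real.rpow_lt_one_of_one_lt_of_neg (by norm_num) (by linarith)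
    have hs : Summable (fun k : ℕ => 4 * ((k:ℝ)+1) * ((2:ℝ)^(-δ))^k) := by
      have s1 := summable_pow_mul_geometric_of_norm_lt_one 1 hr
      have s0 := summable_pow_mul_geometric_of_norm_lt_one 0 hr
      have := (s1.add s0).mul_left 4
      refine this.congr fun k => ?_
      simp only [pow_one, pow_zero]
      ring
    have hs' := (summable_nat_add_iff 1).mpr hs
    rw [← ENNReal.ofReal_tsum_of_nonneg (fun k => by positivity) hs']
    exact ENNReal.ofReal_ne_top
  have := ae_eventually_notMem hsum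
  filter_upwards [this] with z hz
  obtain ⟨k₀, hk₀⟩ := eventually_atTop.mp hz
  refine eventually_atTop.mpr ⟨k₀ + 1, fun k hk => ?_⟩
  obtain ⟨k', rfl⟩ : ∃ k', k = k' + 1 := ⟨k - 1, by omega⟩
  have h1 := hk₀ k' (by omega)
  by_contra hcon
  push Not at hcon
  apply h1
  intro v hv hzv
  exact absurd hzv (not_le.mpr (hcon v hv))

end Pool.Agent.R331.LF
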