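import Pool.Agent.R331.LF.Count
import Pool.Agent.R331.MT.Three

set_option autoImplicit false

namespace Pool.Agent.R331.LF

open MeasureTheory Filter Topology Set
open scoped ENNReal

attribute [local instance] prob1 haar2

/-- the inner property -/
def Hit (δ η ξ : ℝ) : Prop :=
  ∀ᶠ k : ℕ in atTop, ∃ v ∈ Sq (2^k), ∃ r : ℤ, |(v.2:ℝ) * η + v.1 * ξ + r| ≤ (2:ℝ)^(-(2-δ)*k)

theorem hit_of (δ η ξ : ℝ)
    (h : ∀ᶠ k : ℕ in atTop, ∃ v ∈ Sq (2^k), ‖lf v ((η : T1), (ξ : T1))‖ ≤ (2:ℝ)^(-(2-δ)*k)) : Hit δ η ξ := by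
  unfold Hit
  filter_upwards [h] with k hk
  obtain ⟨v, hv, hle⟩ := hk
  refine ⟨v, hv, -round ((v.2:ℝ) * η + v.1 * ξ), ?_⟩
  have e : lf v ((η : T1), (ξ : T1)) = (((v.2:ℝ) * η + v.1 * ξ : ℝ) : T1) := by
    show v.2 • (η : T1) + v.1 • (ξ : T1) = _
    rw [← AddCircle.coe_nsmul, ← AddCircle.coe_nsmul, ← AddCircle.coe_add, nsmul_eq_mul, nsmul_eq_mul]
  rw [e, UnitAddCircle.norm_eq] at hle
  push_cast
  rw [← sub_eq_add_neg]
  exact hle

theorem fiber {δ : ℝ} (hδ : 0 < δ) (hδ1 : δ < 1) :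
    ∀ᵐ η ∂(volume.restrict (Ioc (0:ℝ) 1)), ∀ᵐ ξ ∂(volume.restrict (Ioc (0:ℝ) 1)), Hit δ η ξ := by
  have h := ae_hit hδ hδ1
  have h1 := Measure.ae_ae_of_ae_prod (μ := (volume : Measure T1)) (ν := (volume : Measure T1)) h
  have hm := UnitAddCircle.measurePreserving_mk 0
  rw [zero_add] at hm
  have h2 := hm.quasiMeasurePreserving.ae h1
  filter_upwards [h2] with η hη
  have h3 := hm.quasiMeasurePreserving.ae hη
  filter_upwards [h3] with ξ hξ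
  exact hit_of δ η ξ hξ

/-- the set of points in the plane `(ξ, η)` -/
def EP (w : ℝ) : Set (ℝ × ℝ) := {x | ∃ c : ℝ, 0 < c ∧ {v : ℤ × ℤ × ℤ | 0 < v.1 ∧ 0 < v.2.1 ∧
  |(v.1:ℝ) * x.1 + (v.2.1:ℝ) * x.2 + (v.2.2:ℝ)| < c * (max (v.1:ℝ) (v.2.1:ℝ))^(-w)}.Infinite}

theorem fiber_content {w δ s : ℝ} (hw : 2 < w) (hδ : 0 < δ) (hδ1 : δ < 1) (hs : 0 < s)
    (hst : s < (3 - δ)/(w+1)) (η : ℝ) (hη : ∀ᵐ ξ ∂(volume.restrict (Ioc (0:ℝ) 1)), Hit δ η ξ)
    (A : ℕ → Set ℝ) (hA : {ξ | (ξ, η) ∈ EP w} ⊆ ⋃ j, A j) :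
    ENNReal.ofReal (1/20) ≤ ∑' j, Metric.ediam (A j) ^ s := by
  set t : ℝ := (3-δ)/(w+1) with ht
  have hw1 : 0 < w + 1 := by linarith
  have ht0 : 0 < t := by rw [ht]; exact div_pos (by linarith) hw1
  have ht1 : t ≤ 1 := by rw [ht, div_le_one hw1]; linarith
  refine Pool.Agent.R331.MT.content hs hst ht1
    (fun k => {c | ∃ v ∈ Sq (2^k), ∃ r : ℤ, c = -((v.2:ℝ) * η + r)/v.1})
    (fun k => 2 * (2:ℝ)^(-(3-δ)*k)) (fun k => by positivity) ?_ ?_ A ?_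
  · have h1 : Tendsto (fun k : ℕ => 2 * ((2:ℝ)^(-(3-δ)))^k) atTop (𝓝 (2 * 0)) := by
      apply Tendsto.const_mul
      apply tendsto_pow_atTop_nhds_zero_of_lt_one (by positivity)
      exact Real.rpow_lt_one_of_one_lt_of_neg (by norm_num) (by linarith)
    rw [mul_zero] at h1
    refine h1.congr fun k => ?_
    rw [Real.rpow_mul (by norm_num), Real.rpow_natCast]
  · rw [ae_restrict_iff' measurableSet_Ioc] at hη
    filter_upwards [hη] with ξ hξ hmem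
    have h2 := hξ (Ioo_subset_Ioc_self hmem)
    refine Eventually.frequently ?_
    unfold Hit at h2
    filter_upwards [h2] with k hk
    obtain ⟨v, hv, r, hr⟩ := hk
    refine ⟨-((v.2:ℝ) * η + r)/v.1, ⟨v, hv, r, rfl⟩, ?_⟩
    rw [mem_Sq] at hv
    have hp : (2:ℝ)^k ≤ v.1 := by exact_mod_cast hv.1.1
    have hpk : (0:ℝ) < (2:ℝ)^k := by positivity
    have hp0 : (0:ℝ) < v.1 := lt_of_lt_of_le hpk hp
    have e : ξ - -((v.2:ℝ) * η + r)/v.1 = ((v.2:ℝ) * η + v.1 * ξ + r) / v.1 := by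
      field_simp
      ring
    rw [e, abs_div, abs_of_pos hp0, div_lt_iff₀ hp0]
    have e2 : (2:ℝ)^(-(3-δ)*k) * 2^k = (2:ℝ)^(-(2-δ)*k) := by
      rw [← Real.rpow_natCast, ← Real.rpow_add (by norm_num)]
      congr 1
      ring
    have h3 : (2:ℝ)^(-(2-δ)*k) ≤ (2:ℝ)^(-(3-δ)*k) * v.1 := by
      rw [← e2]
      apply mul_le_mul_of_nonneg_left hp (by positivity)
    have h4 : 0 < (2:ℝ)^(-(3-δ)*k) * v.1 := by positivity
    linarith
  · intro ξ hξ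
    apply hA
    obtain ⟨hξ01, hfr⟩ := hξ
    refine ⟨2^(1/t) * 2 * 2^w, by positivity, ?_⟩
    intro hfin
    obtain ⟨M, hM⟩ := (hfin.image (fun v => v.1)).bddAbove
    obtain ⟨k, ⟨c, ⟨v, hv, r, hc⟩, hlt⟩, hk⟩ := (hfr.and_eventually (eventually_ge_atTop M.toNat)).exists
    rw [mem_Sq] at hv
    have hp : (2:ℝ)^k ≤ v.1 := by exact_mod_cast hv.1.1
    have hpk : (0:ℝ) < (2:ℝ)^k := by positivity
    have hp0 : (0:ℝ) < v.1 := lt_of_lt_of_le hpk hp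
    have hp2 : (v.1:ℝ) ≤ 2 * 2^k := by
      have := hv.1.2.le
      exact_mod_cast this
    have hq2 : (v.2:ℝ) ≤ 2 * 2^k := by
      have := hv.2.2.le
      exact_mod_cast this
    have hlt' : |ξ - c| < 2^(1/t) * (2:ℝ)^(-(w+1)*k) := by
      have e : (2 * (2:ℝ)^(-(3-δ)*k)) ^ (1/t) = 2^(1/t) * (2:ℝ)^(-(w+1)*k) := by
        rw [Real.mul_rpow (by norm_num) (by positivity), ← Real.rpow_mul (by norm_num)]
        congr 2
        rw [ht]
        have : 3 - δ ≠ 0 := by linarith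
        field_simp
      rwa [e] at hlt
    have hmem : ((v.1:ℤ), (v.2:ℤ), r) ∈ {v : ℤ × ℤ × ℤ | 0 < v.1 ∧ 0 < v.2.1 ∧
        |(v.1:ℝ) * (ξ, η).1 + (v.2.1:ℝ) * (ξ, η).2 + (v.2.2:ℝ)| <
          2^(1/t) * 2 * 2^w * (max (v.1:ℝ) (v.2.1:ℝ))^(-w)} := by
      refine ⟨?_, ?_, ?_⟩
      · show (0:ℤ) < (v.1:ℤ)
        exact_mod_cast hp0
      · show (0:ℤ) < (v.2:ℤ)
        have : 0 < v.2 := by
          have : 0 < 2^k := by positivity
          omega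
        exact_mod_cast this
      · show |((v.1:ℤ):ℝ) * ξ + ((v.2:ℤ):ℝ) * η + (r:ℝ)| < 2^(1/t) * 2 * 2^w * (max ((v.1:ℤ):ℝ) ((v.2:ℤ):ℝ))^(-w)
        push_cast
        have e3 : (v.1:ℝ) * ξ + v.2 * η + r = v.1 * (ξ - c) := by
          rw [hc]
          field_simp
          ring
        rw [e3, abs_mul, abs_of_pos hp0]
        have h5 : (2:ℝ)^(-w*k) ≤ 2^w * (max (v.1:ℝ) v.2)^(-w) := by
          have h6 : (max (v.1:ℝ) v.2) ≤ 2 * 2^k := max_le hp2 hq2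
          have h7 : (0:ℝ) < max (v.1:ℝ) v.2 := lt_of_lt_of_le hp0 (le_max_left _ _)
          have h8 : (2 * (2:ℝ)^k)^(-w) ≤ (max (v.1:ℝ) v.2)^(-w) :=
            Real.rpow_le_rpow_of_nonpos h7 h6 (by linarith)
          have h9 : (2 * (2:ℝ)^k)^(-w) = 2^(-w) * (2:ℝ)^(-w*k) := by
            rw [Real.mul_rpow (by norm_num) (by positivity), ← Real.rpow_natCast 2 k, ← Real.rpow_mul (by norm_num)]
            congr 2
            ring
          have h10 : (2:ℝ)^w * 2^(-w) = 1 := by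
            rw [← Real.rpow_add (by norm_num), add_neg_cancel, Real.rpow_zero]
          calc (2:ℝ)^(-w*k) = 2^w * (2^(-w) * (2:ℝ)^(-w*k)) := by rw [← mul_assoc, h10, one_mul]
            _ ≤ _ := by
              rw [← h9]
              exact mul_le_mul_of_nonneg_left h8 (by positivity)
        calc v.1 * |ξ - c| < v.1 * (2^(1/t) * (2:ℝ)^(-(w+1)*k)) := by
              exact mul_lt_mul_of_pos_left hlt' hp0
          _ ≤ (2 * 2^k) * (2^(1/t) * (2:ℝ)^(-(w+1)*k)) := by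
              apply mul_le_mul_of_nonneg_right hp2 (by positivity)
          _ = 2^(1/t) * 2 * (2:ℝ)^(-w*k) := by
              have : (2:ℝ)^k * (2:ℝ)^(-(w+1)*k) = (2:ℝ)^(-w*k) := by
                rw [← Real.rpow_natCast, ← Real.rpow_add (by norm_num)]
                congr 1
                ring
              rw [← this]
              ring
          _ ≤ 2^(1/t) * 2 * (2^w * (max (v.1:ℝ) v.2)^(-w)) := by
              apply mul_le_mul_of_nonneg_left h5 (by positivity)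
          _ = _ := by ring
    have h11 : (v.1:ℤ) ≤ M := hM ⟨_, hmem, rfl⟩
    have h12 : k < 2^k := Nat.lt_two_pow_self
    omega

end Pool.Agent.R331.LF
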