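import Mathlib

set_option autoImplicit false

namespace Pool.Agent.R331.LF

open MeasureTheory Filter Topology Set
open scoped ENNReal

theorem slice {E : Set (ℝ × ℝ)} {s c : ℝ} (hs : 0 < s) (hc : 0 < c)
    (h : ∀ᵐ η ∂(volume.restrict (Ioc (0:ℝ) 1)), ∀ A : ℕ → Set ℝ, {ξ | (ξ, η) ∈ E} ⊆ ⋃ j, A j →
      ENNReal.ofReal c ≤ ∑' j, Metric.ediam (A j) ^ s) :
    ENNReal.ofReal (1 + s) ≤ dimH E := by
  have hs1 : 0 ≤ 1 + s := by linarith
  have key : ENNReal.ofReal c ≤ Measure.hausdorffMeasure (1+s) E := by
    rw [Measure.hausdorffMeasure_apply]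
    refine le_iSup₂_of_le 1 one_pos ?_
    refine le_iInf fun t => le_iInf fun hcov => le_iInf fun _ => ?_
    set P : ℕ → Set ℝ := fun n => closure (Prod.snd '' t n) with hP
    have hPm : ∀ n, MeasurableSet (P n) := fun n => isClosed_closure.measurableSet
    have hPv : ∀ n, volume (P n) ≤ Metric.ediam (t n) := by
      intro n
      refine (Real.volume_le_diam _).trans ?_
      rw [hP, Metric.ediam_closure]
      have := (LipschitzWith.prod_snd (α := ℝ) (β := ℝ)).ediam_image_le (t n)
      simpa using this
    set g : ℝ → ℝ≥0∞ := fun η => ∑' n, (P n).indicator (fun _ => Metric.ediam (t n)^s) η with hg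
    have hae : ∀ᵐ η ∂(volume.restrict (Ioc (0:ℝ) 1)), ENNReal.ofReal c ≤ g η := by
      filter_upwards [h] with η hη
      have h1 := hη (fun n => {ξ | (ξ, η) ∈ t n}) (by
        intro ξ hξ
        have := hcov hξ
        rw [mem_iUnion] at this ⊢
        exact this)
      refine h1.trans (ENNReal.tsum_le_tsum fun n => ?_)
      by_cases hmem : η ∈ P n
      · rw [indicator_of_mem hmem]
        apply ENNReal.rpow_le_rpow _ hs.le
        apply Metric.ediam_le
        intro ξ hξ ξ' hξ'
        have : edist ξ ξ' = edist (ξ, η) (ξ', η) := by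
          rw [Prod.edist_eq]
          simp
        rw [this]
        exact Metric.edist_le_ediam_of_mem hξ hξ'
      · rw [indicator_of_notMem hmem]
        have : {ξ | (ξ, η) ∈ t n} = ∅ := by
          ext ξ
          simp only [mem_empty_iff_false, iff_false]
          intro hξ
          exact hmem (subset_closure ⟨(ξ, η), hξ, rfl⟩)
        rw [this, Metric.ediam_empty, ENNReal.zero_rpow_of_pos hs]
    have h2 : ENNReal.ofReal c ≤ ∫⁻ η in Ioc (0:ℝ) 1, g η := by
      calc ENNReal.ofReal c = ∫⁻ _η in Ioc (0:ℝ) 1, ENNReal.ofReal c := by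
            rw [setLIntegral_const, Real.volume_Ioc]
            simp
        _ ≤ _ := lintegral_mono_ae hae
    refine h2.trans ?_
    rw [hg, lintegral_tsum (fun n => (measurable_const.indicator (hPm n)).aemeasurable)]
    refine ENNReal.tsum_le_tsum fun n => ?_
    rw [lintegral_indicator (hPm n), setLIntegral_const]
    by_cases hne : (t n).Nonempty
    · rw [iSup_pos hne, ENNReal.rpow_add_of_nonneg _ _ zero_le_one hs.le, ENNReal.rpow_one, mul_comm]
      gcongr
      exact (Measure.restrict_apply_le _ _).trans (hPv n)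
    · have : t n = ∅ := not_nonempty_iff_eq_empty.mp hne
      rw [iSup_neg hne]
      simp [hP, this]
  have h3 := le_dimH_of_hausdorffMeasure_ne_zero (s := E) (d := (1+s).toNNReal) (by
    rw [Real.coe_toNNReal _ hs1]
    intro h0
    rw [h0] at key
    simp at key
    linarith)
  exact h3

end Pool.Agent.R331.LF
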