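import Mathlib

set_option autoImplicit false

/-!
Second moment method on the two-dimensional torus for linear forms with positive coefficients.
-/

namespace Pool.Agent.R331.LF

open MeasureTheory Filter Topology Set
open scoped ENNReal

abbrev T1 := UnitAddCircle

theorem prob1 : IsProbabilityMeasure (volume : Measure T1) := ⟨UnitAddCircle.measure_univ⟩

attribute [local instance] prob1

theorem haar2 : (volume : Measure (T1 × T1)).IsAddHaarMeasure := by
  show ((volume : Measure T1).prod (volume : Measure T1)).IsAddHaarMeasure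
  infer_instance

attribute [local instance] haar2

/-- linear form -/
def lf (v : ℕ × ℕ) : T1 × T1 →+ T1 where
  toFun := fun z => v.2 • z.1 + v.1 • z.2
  map_zero' := by simp
  map_add' := by
    intro a b
    simp only [Prod.fst_add, Prod.snd_add, smul_add]
    abel

theorem lf_cont (v : ℕ × ℕ) : Continuous (lf v) := by
  show Continuous (fun z : T1 × T1 => v.2 • z.1 + v.1 • z.2)
  fun_prop

/-- the set where the form is small -/
def EE (ε : ℝ) (v : ℕ × ℕ) : Set (T1 × T1) := {z | ‖lf v z‖ ≤ ε}

theorem EE_eq (ε : ℝ) (v : ℕ × ℕ) : EE ε v = lf v ⁻¹' Metric.closedBall 0 ε := by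
  ext z
  simp [EE]

theorem meas_EE (ε : ℝ) (v : ℕ × ℕ) : MeasurableSet (EE ε v) := by
  rw [EE_eq]
  exact (lf_cont v).measurable measurableSet_closedBall

theorem lf_surj {v : ℕ × ℕ} (hv : 0 < v.1) : Function.Surjective (lf v) := by
  intro w
  induction w using QuotientAddGroup.induction_on with
  | H x =>
    refine ⟨(0, ((x / v.1 : ℝ) : T1)), ?_⟩
    show v.2 • (0 : T1) + v.1 • ((x / v.1 : ℝ) : T1) = _
    rw [smul_zero, zero_add, ← AddCircle.coe_nsmul, nsmul_eq_mul, mul_div_cancel₀]
    have : (0:ℝ) < v.1 := by exact_mod_cast hv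
    exact this.ne'

theorem vol_EE {ε : ℝ} (hε : 0 ≤ ε) (hε1 : ε ≤ 1/2) {v : ℕ × ℕ} (hv : 0 < v.1) :
    volume (EE ε v) = ENNReal.ofReal (2 * ε) := by
  have h := AddMonoidHom.measurePreserving (μ := (volume : Measure (T1 × T1))) (ν := (volume : Measure T1))
    (f := lf v) (lf_cont v) (lf_surj hv) (by rw [measure_univ, measure_univ])
  rw [EE_eq, h.measure_preimage measurableSet_closedBall.nullMeasurableSet, AddCircle.volume_closedBall,
    min_eq_right (by linarith)]

/-- pair of forms -/
def lf2 (v v' : ℕ × ℕ) : T1 × T1 →+ T1 × T1 := (lf v).prod (lf v')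

theorem lf2_surj {v v' : ℕ × ℕ} (h : v.1 * v'.2 ≠ v'.1 * v.2) : Function.Surjective (lf2 v v') := by
  rintro ⟨w, w'⟩
  induction w using QuotientAddGroup.induction_on with
  | H x =>
    induction w' using QuotientAddGroup.induction_on with
    | H x' =>
      set d : ℝ := (v.2:ℝ) * v'.1 - v.1 * v'.2 with hd
      have hd0 : d ≠ 0 := by
        intro h0
        apply h
        have : (v.1:ℝ) * v'.2 = v'.1 * v.2 := by linarith
        exact_mod_cast this
      -- solve v.2 a + v.1 b = x, v'.2 a + v'.1 b = x'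
      refine ⟨((((x * v'.1 - x' * v.1) / d : ℝ) : T1), (((x' * v.2 - x * v'.2) / d : ℝ) : T1)), ?_⟩
      ext
      · show v.2 • (((x * v'.1 - x' * v.1) / d : ℝ) : T1) + v.1 • (((x' * v.2 - x * v'.2) / d : ℝ) : T1) = (x : T1)
        rw [← AddCircle.coe_nsmul, ← AddCircle.coe_nsmul, ← AddCircle.coe_add, nsmul_eq_mul, nsmul_eq_mul]
        congr 1
        field_simp
        rw [hd]
        ring
      · show v'.2 • (((x * v'.1 - x' * v.1) / d : ℝ) : T1) + v'.1 • (((x' * v.2 - x * v'.2) / d : ℝ) : T1) = (x' : T1)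
        rw [← AddCircle.coe_nsmul, ← AddCircle.coe_nsmul, ← AddCircle.coe_add, nsmul_eq_mul, nsmul_eq_mul]
        congr 1
        field_simp
        rw [hd]
        ring

theorem vol_inter {ε : ℝ} (hε : 0 ≤ ε) (hε1 : ε ≤ 1/2) {v v' : ℕ × ℕ} (h : v.1 * v'.2 ≠ v'.1 * v.2) :
    volume (EE ε v ∩ EE ε v') = ENNReal.ofReal (2 * ε) * ENNReal.ofReal (2 * ε) := by
  have hm := AddMonoidHom.measurePreserving (μ := (volume : Measure (T1 × T1))) (ν := (volume : Measure (T1 × T1)))
    (f := lf2 v v') ((lf_cont v).prodMk (lf_cont v')) (lf2_surj h) rfl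
  have e : EE ε v ∩ EE ε v' = lf2 v v' ⁻¹' (Metric.closedBall 0 ε ×ˢ Metric.closedBall 0 ε) := by
    rw [EE_eq, EE_eq]
    rfl
  rw [e, hm.measure_preimage (measurableSet_closedBall.prod measurableSet_closedBall).nullMeasurableSet]
  show (volume : Measure T1).prod (volume : Measure T1) _ = _
  rw [Measure.prod_prod, AddCircle.volume_closedBall, min_eq_right (by linarith)]

/-- Chebyshev -/
theorem cheb {Ω : Type*} [MeasurableSpace Ω] (μ : Measure Ω) [IsProbabilityMeasure μ] {ι : Type*}
    (S : Finset ι) (E : ι → Set Ω) (hE : ∀ i, MeasurableSet (E i)) (p : ℝ) (hp : 0 < p)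
    (hμ : ∀ i ∈ S, μ.real (E i) = p) (V : ℝ)
    (hV : ∑ i ∈ S, ∑ j ∈ S, (μ.real (E i ∩ E j) - p^2) ≤ V) (hS : S.Nonempty) :
    μ.real {z | ∀ i ∈ S, z ∉ E i} ≤ V / (p * S.card)^2 := by
  classical
  set m : ℝ := p * S.card with hm
  have hcard : (0:ℝ) < S.card := by exact_mod_cast hS.card_pos
  have hm0 : 0 < m := mul_pos hp hcard
  set X : Ω → ℝ := fun z => ∑ i ∈ S, (E i).indicator (fun _ => (1:ℝ)) z with hX
  have hint : ∀ A : Set Ω, MeasurableSet A → Integrable (A.indicator (fun _ => (1:ℝ))) μ := fun A hA =>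
    (integrable_const 1).indicator hA
  have hexp : ∀ z, (X z - m)^2 = ∑ i ∈ S, ∑ j ∈ S, (E i ∩ E j).indicator (fun _ => (1:ℝ)) z -
      2 * m * ∑ i ∈ S, (E i).indicator (fun _ => (1:ℝ)) z + m^2 := by
    intro z
    have : (X z)^2 = ∑ i ∈ S, ∑ j ∈ S, (E i ∩ E j).indicator (fun _ => (1:ℝ)) z := by
      rw [sq, hX]
      simp only
      rw [Finset.sum_mul_sum]
      apply Finset.sum_congr rfl
      intro i _
      apply Finset.sum_congr rfl
      intro j _
      by_cases h1 : z ∈ E i
      · by_cases h2 : z ∈ E j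
        · simp [h1, h2]
        · simp [h1, h2]
      · simp [h1]
    rw [← this]
    simp only [hX]
    ring
  have hintX : Integrable (fun z => (X z - m)^2) μ := by
    simp_rw [hexp]
    refine Integrable.add (Integrable.sub ?_ ?_) (integrable_const _)
    · exact integrable_finsetSum _ fun i _ => integrable_finsetSum _ fun j _ => hint _ ((hE i).inter (hE j))
    · exact (integrable_finsetSum _ fun i _ => hint _ (hE i)).const_mul _
  have hval : ∫ z, (X z - m)^2 ∂μ = ∑ i ∈ S, ∑ j ∈ S, (μ.real (E i ∩ E j) - p^2) := by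
    simp_rw [hexp]
    rw [integral_add, integral_sub, integral_finsetSum, integral_const_mul, integral_finsetSum]
    · have h1 : ∀ i ∈ S, ∫ z, ∑ j ∈ S, (E i ∩ E j).indicator (fun _ => (1:ℝ)) z ∂μ = ∑ j ∈ S, μ.real (E i ∩ E j) := by
        intro i _
        rw [integral_finsetSum]
        · apply Finset.sum_congr rfl
          intro j _
          rw [integral_indicator ((hE i).inter (hE j))]
          simp
        · exact fun j _ => hint _ ((hE i).inter (hE j))
      rw [Finset.sum_congr rfl h1]
      have h2 : ∀ i ∈ S, ∫ z, (E i).indicator (fun _ => (1:ℝ)) z ∂μ = p := by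
        intro i hi
        rw [integral_indicator (hE i), ← hμ i hi]
        simp
      rw [Finset.sum_congr rfl h2]
      simp only [Finset.sum_sub_distrib, Finset.sum_const, nsmul_eq_mul, integral_const, probReal_univ,
        smul_eq_mul]
      rw [hm]
      ring
    · exact fun i _ => hint _ (hE i)
    · exact fun i _ => integrable_finsetSum _ fun j _ => hint _ ((hE i).inter (hE j))
    · exact integrable_finsetSum _ fun i _ => integrable_finsetSum _ fun j _ => hint _ ((hE i).inter (hE j))
    · exact (integrable_finsetSum _ fun i _ => hint _ (hE i)).const_mul _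
    · exact Integrable.sub (integrable_finsetSum _ fun i _ => integrable_finsetSum _ fun j _ => hint _ ((hE i).inter (hE j)))
        ((integrable_finsetSum _ fun i _ => hint _ (hE i)).const_mul _)
    · exact integrable_const _
  set Z : Set Ω := {z | ∀ i ∈ S, z ∉ E i} with hZ
  have hZm : MeasurableSet Z := by
    have : Z = ⋂ i ∈ S, (E i)ᶜ := by
      ext z
      simp [hZ]
    rw [this]
    exact Finset.measurableSet_biInter _ fun i _ => (hE i).compl
  have hlow : m^2 * μ.real Z ≤ ∫ z, (X z - m)^2 ∂μ := by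
    have h1 : ∫ z, Z.indicator (fun _ => m^2) z ∂μ = m^2 * μ.real Z := by
      rw [integral_indicator hZm, setIntegral_const, smul_eq_mul, mul_comm]
    rw [← h1]
    apply integral_mono ((integrable_const _).indicator hZm) hintX
    intro z
    by_cases hz : z ∈ Z
    · rw [Set.indicator_of_mem hz]
      have : X z = 0 := by
        simp only [hX]
        apply Finset.sum_eq_zero
        intro i hi
        rw [Set.indicator_of_notMem (hz i hi)]
      simp only [this]
      nlinarith
    · rw [Set.indicator_of_notMem hz]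
      positivity
  rw [le_div_iff₀ (by positivity), mul_comm]
  linarith

end Pool.Agent.R331.LF
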