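import Pool.Agent.R331.LF.Cantelli
import Pool.Agent.R331.LF.Fiber

set_option autoImplicit false

namespace Pool.Agent.R331.LF

open MeasureTheory Filter Topology Set
open scoped ENNReal

/-- height -/
def HH (v : ℕ × ℕ) : ℕ := max (v.1+1) (v.2+1)

/-- small cells of the strips -/
def TT (K w : ℝ) (j : (ℕ × ℕ) × (ℤ × ℤ)) : Set (ℝ × ℝ) := {x | |x.1| ≤ K ∧ |x.2| ≤ K ∧
  |((j.1.1:ℝ)+1) * x.1 + ((j.1.2:ℝ)+1) * x.2 + j.2.1| ≤ K * (HH j.1 : ℝ)^(-w) ∧
  ⌊(if j.1.1 ≤ j.1.2 then x.1 else x.2) * (HH j.1 : ℝ)^(w+1)⌋ = j.2.2}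

theorem HH_ge (v : ℕ × ℕ) : 1 ≤ HH v := le_trans (by omega) (le_max_left _ _)

theorem TT_diam {K w : ℝ} (hK : 1 ≤ K) (hw : 2 < w) (j : (ℕ × ℕ) × (ℤ × ℤ)) :
    Metric.ediam (TT K w j) ≤ ENNReal.ofReal ((2*K+1) * (HH j.1 : ℝ)^(-(w+1))) := by
  obtain ⟨⟨p, q⟩, ⟨r, i⟩⟩ := j
  set H : ℝ := (HH (p, q) : ℝ) with hH
  have hH1 : 1 ≤ H := by rw [hH]; exact_mod_cast HH_ge (p, q)
  have hH0 : 0 < H := by linarith
  have hpH : (p:ℝ)+1 ≤ H := by
    rw [hH]; unfold HH; push_cast; exact le_max_left _ _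
  have hqH : (q:ℝ)+1 ≤ H := by
    rw [hH]; unfold HH; push_cast; exact le_max_right _ _
  have hHw : H^(-w) = H * H^(-(w+1)) := by
    nth_rewrite 2 [← Real.rpow_one H]
    rw [← Real.rpow_add hH0]
    congr 1
    ring
  have hHinv : H^(w+1) * H^(-(w+1)) = 1 := by
    rw [← Real.rpow_add hH0, add_neg_cancel, Real.rpow_zero]
  have hpos : 0 < H^(-(w+1)) := by positivity
  have hp0 : (0:ℝ) ≤ p := Nat.cast_nonneg p
  have hq0 : (0:ℝ) ≤ q := Nat.cast_nonneg q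
  apply Metric.ediam_le
  rintro ⟨x1, x2⟩ ⟨_, _, hx, hxi⟩ ⟨y1, y2⟩ ⟨_, _, hy, hyi⟩
  simp only at hx hxi hy hyi
  rw [← hH] at hx hxi hy hyi
  rw [edist_dist]
  apply ENNReal.ofReal_le_ofReal
  rw [Prod.dist_eq, Real.dist_eq, Real.dist_eq]
  rw [hHw] at hx hy
  rw [abs_le] at hx hy
  -- generic solver
  have gen : ∀ a b P Q : ℝ, 0 ≤ P → P ≤ H → Q = H → |a| ≤ H^(-(w+1)) →
      |P * a + Q * b| ≤ 2 * (K * (H * H^(-(w+1)))) → |b| ≤ (2*K+1) * H^(-(w+1)) := by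
    intro a b P Q hP hPH hQ ha hab
    have h1 : H * |b| ≤ H * ((2*K+1) * H^(-(w+1))) := by
      calc H * |b| = |Q * b| := by rw [hQ, abs_mul, abs_of_pos hH0]
        _ = |(P * a + Q * b) - P * a| := by congr 1; ring
        _ ≤ |P * a + Q * b| + |P * a| := abs_sub _ _
        _ ≤ 2 * (K * (H * H^(-(w+1)))) + H * H^(-(w+1)) := by
            apply add_le_add hab
            rw [abs_mul, abs_of_nonneg hP]
            exact mul_le_mul hPH ha (abs_nonneg _) hH0.le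
        _ = _ := by ring
    exact le_of_mul_le_mul_left h1 hH0
  have small : ∀ a b : ℝ, ⌊a * H^(w+1)⌋ = i → ⌊b * H^(w+1)⌋ = i → |a - b| ≤ H^(-(w+1)) := by
    intro a b ha hb
    have h1 := Int.abs_sub_lt_one_of_floor_eq_floor (ha.trans hb.symm)
    rw [← sub_mul, abs_mul, abs_of_pos (by positivity : 0 < H^(w+1))] at h1
    have h2 := mul_lt_mul_of_pos_right h1 hpos
    rw [mul_assoc, hHinv, mul_one, one_mul] at h2
    exact h2.le
  have hle1 : H^(-(w+1)) ≤ (2*K+1) * H^(-(w+1)) := by nlinarith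
  by_cases hpq : p ≤ q
  · rw [if_pos hpq] at hxi hyi
    have hQ : (q:ℝ)+1 = H := by
      rw [hH]; unfold HH; push_cast
      rw [max_eq_right]
      have : (p:ℝ) ≤ q := by exact_mod_cast hpq
      linarith
    have h1 := small x1 y1 hxi hyi
    have h2 := gen (x1 - y1) (x2 - y2) (p+1) (q+1) (by linarith) hpH hQ h1 (by
      rw [abs_le]
      constructor <;> nlinarith [hx.1, hx.2, hy.1, hy.2])
    exact max_le (h1.trans hle1) h2
  · rw [if_neg hpq] at hxi hyi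
    have hQ : (p:ℝ)+1 = H := by
      rw [hH]; unfold HH; push_cast
      rw [max_eq_left]
      have : (q:ℝ) ≤ p := by
        have : q ≤ p := by omega
        exact_mod_cast this
      linarith
    have h1 := small x2 y2 hxi hyi
    have h2 := gen (x2 - y2) (x1 - y1) (q+1) (p+1) (by linarith) hqH hQ h1 (by
      rw [abs_le]
      constructor <;> nlinarith [hx.1, hx.2, hy.1, hy.2])
    exact max_le h2 (h1.trans hle1)

theorem TT_empty {K w : ℝ} (hK : 1 ≤ K) (hw : 2 < w) (v : ℕ × ℕ) (r i : ℤ)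
    (h : (TT K w (v, (r, i))).Nonempty) :
    r ∈ Finset.Icc (-⌈3*K*HH v⌉) ⌈3*K*HH v⌉ ∧
    i ∈ Finset.Icc (-⌈K*(HH v : ℝ)^(w+1)⌉-1) (⌈K*(HH v : ℝ)^(w+1)⌉+1) := by
  obtain ⟨⟨x1, x2⟩, hx1, hx2, hx, hi⟩ := h
  simp only at hx1 hx2 hx hi
  set H : ℝ := (HH v : ℝ) with hH
  have hH1 : 1 ≤ H := by rw [hH]; exact_mod_cast HH_ge v
  have hH0 : 0 < H := by linarith
  have hpH : (v.1:ℝ)+1 ≤ H := by
    rw [hH]; unfold HH; push_cast; exact le_max_left _ _
  have hqH : (v.2:ℝ)+1 ≤ H := by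
    rw [hH]; unfold HH; push_cast; exact le_max_right _ _
  have hp0 : (0:ℝ) ≤ v.1 := Nat.cast_nonneg _
  have hq0 : (0:ℝ) ≤ v.2 := Nat.cast_nonneg _
  constructor
  · have h1 : |(r:ℝ)| ≤ 3 * K * H := by
      have hw1 : H^(-w) ≤ 1 := Real.rpow_le_one_of_one_le_of_nonpos hH1 (by linarith)
      have ha : |((v.1:ℝ)+1) * x1| ≤ H * K := by
        rw [abs_mul, abs_of_nonneg (by linarith)]
        exact mul_le_mul hpH hx1 (abs_nonneg _) hH0.le
      have hb : |((v.2:ℝ)+1) * x2| ≤ H * K := by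
        rw [abs_mul, abs_of_nonneg (by linarith)]
        exact mul_le_mul hqH hx2 (abs_nonneg _) hH0.le
      rw [abs_le] at ha hb hx ⊢
      have hKK : K * H^(-w) ≤ K * H := by
        apply mul_le_mul_of_nonneg_left _ (by linarith)
        linarith
      constructor <;> nlinarith [ha.1, ha.2, hb.1, hb.2, hx.1, hx.2]
    rw [abs_le] at h1
    rw [Finset.mem_Icc]
    constructor
    · have : (-(⌈3*K*H⌉:ℝ)) ≤ r := by
        have := Int.le_ceil (3*K*H)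
        linarith [h1.1]
      exact_mod_cast this
    · have : (r:ℝ) ≤ ⌈3*K*H⌉ := h1.2.trans (Int.le_ceil _)
      exact_mod_cast this
  · set u : ℝ := (if v.1 ≤ v.2 then x1 else x2) with hu
    have hu1 : |u| ≤ K := by
      rw [hu]
      split_ifs
      · exact hx1
      · exact hx2
    have hpos : 0 < H^(w+1) := by positivity
    have h2 : |u * H^(w+1)| ≤ K * H^(w+1) := by
      rw [abs_mul, abs_of_pos hpos]
      exact mul_le_mul_of_nonneg_right hu1 hpos.le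
    rw [abs_le] at h2
    have h3 := Int.floor_le (u * H^(w+1))
    have h4 := Int.lt_floor_add_one (u * H^(w+1))
    rw [hi] at h3 h4
    have h5 := Int.le_ceil (K * H^(w+1))
    rw [Finset.mem_Icc]
    constructor
    · have : (-(⌈K*H^(w+1)⌉:ℝ)) - 1 < i := by linarith [h2.1]
      have : (((-⌈K*H^(w+1)⌉ - 1 : ℤ)) : ℝ) < (i:ℝ) := by push_cast; exact this
      exact (Int.cast_lt.mp this).le
    · have : (i:ℝ) ≤ ((⌈K*H^(w+1)⌉ + 1 : ℤ) : ℝ) := by push_cast; linarith [h2.2]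
      exact Int.cast_le.mp this

theorem TT_sum {K w σ : ℝ} (hK : 1 ≤ K) (hw : 2 < w) (hσ : 1 + 3/(w+1) < σ) :
    ∑' j, (Metric.ediam (TT K w j))^σ ≠ ⊤ := by
  have hw1 : 0 < w + 1 := by linarith
  have hσ0 : 0 < σ := by
    have : 0 < 3/(w+1) := by positivity
    linarith
  rw [ENNReal.tsum_prod']
  have ha : (2:ℝ) < σ*(w+1) - (w+2) := by
    have : (1 + 3/(w+1)) * (w+1) < σ * (w+1) := mul_lt_mul_of_pos_right hσ hw1
    have e : (1 + 3/(w+1)) * (w+1) = w + 4 := by field_simp; ring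
    linarith
  have hin : ∀ v : ℕ × ℕ, ∑' b : ℤ × ℤ, (Metric.ediam (TT K w (v, b)))^σ ≤
      ENNReal.ofReal ((6*K+3)*(2*K+7)*(2*K+1)^σ) * ENNReal.ofReal ((HH v : ℝ)^(-(σ*(w+1) - (w+2)))) := by
    intro v
    set H : ℝ := (HH v : ℝ) with hH
    have hH1 : 1 ≤ H := by rw [hH]; exact_mod_cast HH_ge v
    have hH0 : 0 < H := by linarith
    set S : Finset (ℤ × ℤ) := Finset.Icc (-⌈3*K*H⌉) ⌈3*K*H⌉ ×ˢ
      Finset.Icc (-⌈K*H^(w+1)⌉-1) (⌈K*H^(w+1)⌉+1) with hS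
    have h1 : ∑' b : ℤ × ℤ, (Metric.ediam (TT K w (v, b)))^σ = ∑ b ∈ S, (Metric.ediam (TT K w (v, b)))^σ := by
      apply tsum_eq_sum
      intro b hb
      have hemp : TT K w (v, b) = ∅ := by
        by_contra hne
        apply hb
        have := TT_empty hK hw v b.1 b.2 (nonempty_iff_ne_empty.mpr hne)
        rw [hS, Finset.mem_product]
        exact this
      rw [hemp, Metric.ediam_empty, ENNReal.zero_rpow_of_pos hσ0]
    rw [h1]
    have h2 : ∀ b ∈ S, (Metric.ediam (TT K w (v, b)))^σ ≤ ENNReal.ofReal (((2*K+1) * H^(-(w+1)))^σ) := by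
      intro b _
      rw [← ENNReal.ofReal_rpow_of_pos (by positivity)]
      exact ENNReal.rpow_le_rpow (TT_diam hK hw (v, b)) hσ0.le
    refine (Finset.sum_le_card_nsmul _ _ _ h2).trans ?_
    have hc1 : ((Finset.Icc (-⌈3*K*H⌉) ⌈3*K*H⌉).card : ℝ) ≤ (6*K+3) * H := by
      rw [Int.card_Icc]
      have hnn : 0 ≤ ⌈3*K*H⌉ + 1 - -⌈3*K*H⌉ := by
        have : 0 ≤ ⌈3*K*H⌉ := Int.ceil_nonneg (by positivity)
        omega
      have : (((⌈3*K*H⌉ + 1 - -⌈3*K*H⌉).toNat : ℕ) : ℝ) = ((⌈3*K*H⌉ + 1 - -⌈3*K*H⌉ : ℤ) : ℝ) := by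
        rw [← Int.cast_natCast, Int.toNat_of_nonneg hnn]
      rw [this]
      push_cast
      have := (Int.ceil_lt_add_one (3*K*H)).le
      nlinarith
    have hHw : 1 ≤ H^(w+1) := Real.one_le_rpow hH1 hw1.le
    have hc2 : ((Finset.Icc (-⌈K*H^(w+1)⌉-1) (⌈K*H^(w+1)⌉+1)).card : ℝ) ≤ (2*K+7) * H^(w+1) := by
      rw [Int.card_Icc]
      have hnn : 0 ≤ ⌈K*H^(w+1)⌉+1 + 1 - (-⌈K*H^(w+1)⌉-1) := by
        have : 0 ≤ ⌈K*H^(w+1)⌉ := Int.ceil_nonneg (by positivity)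
        omega
      have : (((⌈K*H^(w+1)⌉+1 + 1 - (-⌈K*H^(w+1)⌉-1)).toNat : ℕ) : ℝ) =
          ((⌈K*H^(w+1)⌉+1 + 1 - (-⌈K*H^(w+1)⌉-1) : ℤ) : ℝ) := by
        rw [← Int.cast_natCast, Int.toNat_of_nonneg hnn]
      rw [this]
      push_cast
      have := (Int.ceil_lt_add_one (K*H^(w+1))).le
      nlinarith
    have hcard : (S.card : ℝ) ≤ (6*K+3)*(2*K+7) * (H * H^(w+1)) := by
      rw [hS, Finset.card_product]
      push_cast
      calc ((Finset.Icc (-⌈3*K*H⌉) ⌈3*K*H⌉).card : ℝ) *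
          ((Finset.Icc (-⌈K*H^(w+1)⌉-1) (⌈K*H^(w+1)⌉+1)).card : ℝ)
          ≤ ((6*K+3) * H) * ((2*K+7) * H^(w+1)) := by
            apply mul_le_mul hc1 hc2 (by positivity) (by positivity)
        _ = _ := by ring
    rw [nsmul_eq_mul, ← ENNReal.ofReal_natCast, ← ENNReal.ofReal_mul (by positivity),
      ← ENNReal.ofReal_mul (by positivity)]
    apply ENNReal.ofReal_le_ofReal
    calc (S.card : ℝ) * ((2*K+1) * H^(-(w+1)))^σ
        ≤ ((6*K+3)*(2*K+7) * (H * H^(w+1))) * ((2*K+1) * H^(-(w+1)))^σ := by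
          apply mul_le_mul_of_nonneg_right hcard (by positivity)
      _ = _ := by
          rw [Real.mul_rpow (by positivity) (by positivity), ← Real.rpow_mul hH0.le]
          have : H * H^(w+1) * H^(-(w+1)*σ) = H^(-(σ*(w+1) - (w+2))) := by
            nth_rewrite 1 [← Real.rpow_one H]
            rw [← Real.rpow_add hH0, ← Real.rpow_add hH0]
            congr 1
            ring
          rw [← this]
          ring
  refine ne_top_of_le_ne_top ?_ (ENNReal.tsum_le_tsum hin)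
  rw [ENNReal.tsum_mul_left]
  refine ENNReal.mul_ne_top ENNReal.ofReal_ne_top ?_
  apply tsum_ht_ne_top HH 2 1 HH_ge
  · intro N
    have hsub : {v : ℕ × ℕ | HH v ≤ N} ⊆ ((Finset.range N ×ˢ Finset.range N : Finset (ℕ × ℕ)) : Set (ℕ × ℕ)) := by
      intro v hv
      simp only [mem_setOf_eq, HH] at hv
      rw [Finset.mem_coe, Finset.mem_product, Finset.mem_range, Finset.mem_range]
      have h1 := le_max_left (v.1+1) (v.2+1)
      have h2 := le_max_right (v.1+1) (v.2+1)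
      omega
    refine ⟨(Finset.finite_toSet _).subset hsub, ?_⟩
    refine (ncard_le_ncard hsub (Finset.finite_toSet _)).trans ?_
    rw [ncard_coe_finset, Finset.card_product, Finset.card_range, one_mul, sq]
  · push_cast
    exact ha

theorem EP_upper {w : ℝ} (hw : 2 < w) : dimH (EP w) ≤ ENNReal.ofReal (1 + 3/(w+1)) := by
  have hw1 : 0 < w + 1 := by linarith
  have hsub : EP w ⊆ ⋃ K : ℕ, {x | {j | x ∈ TT ((K:ℝ)+1) w j}.Infinite} := by
    rintro ⟨x1, x2⟩ ⟨c, hc, hinf⟩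
    obtain ⟨K, hK⟩ := exists_nat_ge (max c (max |x1| |x2|))
    have hKc : c ≤ (K:ℝ)+1 := by linarith [(le_max_left c (max |x1| |x2|)).trans hK]
    have hK1 : |x1| ≤ (K:ℝ)+1 := by
      linarith [((le_max_left |x1| |x2|).trans (le_max_right c _)).trans hK]
    have hK2 : |x2| ≤ (K:ℝ)+1 := by
      linarith [((le_max_right |x1| |x2|).trans (le_max_right c _)).trans hK]
    rw [mem_iUnion]
    refine ⟨K, ?_⟩
    set φ : ℤ × ℤ × ℤ → (ℕ × ℕ) × (ℤ × ℤ) := fun v =>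
      let u : ℕ × ℕ := (v.1.toNat - 1, v.2.1.toNat - 1)
      (u, (v.2.2, ⌊(if u.1 ≤ u.2 then x1 else x2) * (HH u : ℝ)^(w+1)⌋)) with hφ
    have hinj : Set.InjOn φ {v : ℤ × ℤ × ℤ | 0 < v.1 ∧ 0 < v.2.1 ∧
        |(v.1:ℝ) * (x1, x2).1 + (v.2.1:ℝ) * (x1, x2).2 + (v.2.2:ℝ)| < c * (max (v.1:ℝ) (v.2.1:ℝ))^(-w)} := by
      rintro ⟨a, b, r⟩ ⟨ha, hb, _⟩ ⟨a', b', r'⟩ ⟨ha', hb', _⟩ he
      simp only [hφ, Prod.mk.injEq] at he
      simp only at ha hb ha' hb'
      obtain ⟨⟨e1, e2⟩, e3, _⟩ := he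
      have : a = a' := by omega
      have : b = b' := by omega
      simp_all
    refine (hinf.image hinj).mono ?_
    rintro _ ⟨⟨a, b, r⟩, ⟨ha, hb, hlt⟩, rfl⟩
    simp only at ha hb hlt
    have ea : ((a.toNat - 1 : ℕ) : ℝ) + 1 = a := by
      have : (((a.toNat - 1 : ℕ) : ℤ)) + 1 = a := by omega
      exact_mod_cast this
    have eb : ((b.toNat - 1 : ℕ) : ℝ) + 1 = b := by
      have : (((b.toNat - 1 : ℕ) : ℤ)) + 1 = b := by omega
      exact_mod_cast this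
    have eH : ((HH (a.toNat - 1, b.toNat - 1) : ℕ) : ℝ) = max (a:ℝ) b := by
      unfold HH
      push_cast
      rw [ea, eb]
    refine ⟨hK1, hK2, ?_, rfl⟩
    simp only [hφ]
    rw [ea, eb, eH]
    refine hlt.le.trans ?_
    apply mul_le_mul_of_nonneg_right hKc
    have : (0:ℝ) < a := by exact_mod_cast ha
    have : (0:ℝ) < max (a:ℝ) b := lt_of_lt_of_le this (le_max_left _ _)
    positivity
  refine (dimH_mono hsub).trans ?_
  rw [dimH_iUnion]
  refine iSup_le fun K => ?_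
  have hpos : 0 < 1 + 3/(w+1) := by positivity
  refine le_of_forall_gt fun b hb => ?_
  obtain ⟨c, hc1, hc2⟩ := ENNReal.lt_iff_exists_nnreal_btwn.mp hb
  have hc3 : 1 + 3/(w+1) < (c:ℝ) := by
    rw [← ENNReal.ofReal_coe_nnreal] at hc1
    exact (ENNReal.ofReal_lt_ofReal_iff_of_nonneg hpos.le).mp hc1
  have h1 : dimH {x | {j | x ∈ TT ((K:ℝ)+1) w j}.Infinite} ≤ ENNReal.ofReal (c:ℝ) :=
    hc _ (c:ℝ) (by linarith) (TT_sum (by have : (0:ℝ) ≤ K := Nat.cast_nonneg K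
                                         linarith) hw hc3)
  rw [ENNReal.ofReal_coe_nnreal] at h1
  exact lt_of_le_of_lt h1 hc2

end Pool.Agent.R331.LF
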